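import Pool.Agent.helper76.FF2.Spec

set_option autoImplicit false

namespace Pool.Agent.FF2

open Polynomial

theorem WWW_der2 {K : Type*} [Field K] [CharP K 2] (w : K[X]) : derivative (w ^ 2) = 0 := by
  rw [Polynomial.derivative_sq]
  have h : (2 : K) = 0 := CharTwo.two_eq_zero
  rw [h, map_zero, zero_mul, zero_mul]

theorem WWW_der4 {K : Type*} [Field K] [CharP K 2] (w : K[X]) : derivative (w ^ 4) = 0 := by
  have h : w ^ 4 = (w ^ 2) ^ 2 := by ring
  rw [h]
  exact WWW_der2 _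

theorem WWW_hasse {K : Type*} [Field K] [CharP K 2] (w : K[X]) : hasseDeriv 2 (w ^ 4) = 0 := by
  have h : w ^ 4 = w ^ 2 * w ^ 2 := by ring
  have h2 : hasseDeriv 1 (w ^ 2) = 0 := by
    rw [Polynomial.hasseDeriv_one]
    exact WWW_der2 w
  rw [h, Polynomial.hasseDeriv_mul, Finset.Nat.sum_antidiagonal_eq_sum_range_succ_mk]
  rw [Finset.sum_range_succ, Finset.sum_range_succ, Finset.sum_range_succ, Finset.sum_range_zero]
  simp only [h2, Polynomial.hasseDeriv_zero', mul_zero, zero_add, add_zero, Nat.sub_zero, Nat.sub_self]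
  rw [mul_comm (hasseDeriv 2 (w ^ 2)) (w ^ 2)]
  exact CharTwo.add_self_eq_zero _

theorem WWW_one {K : Type*} [Field K] [CharP K 2] (h1 : ZRT_stmt K) (A E s w g : K[X]) (B R : Finset K)
    (hA : derivative A = (pol B * E) ^ 2) (hw : A + w ^ 4 = s * pol R) (hR : ∀ x ∈ R, s.eval x ≠ 0) :
    ∑ x ∈ R, g.eval x / (pol B ^ 2 * (E ^ 2 * s)).eval x =
      ∑ x ∈ R, g.eval x / ((s ^ 2).eval x * (derivative (pol R)).eval x) := by
  apply Finset.sum_congr rfl
  intro x hx
  obtain ⟨-, h3, -⟩ := h1 A (w ^ 4) s R hw (WWW_der4 w) (WWW_hasse w) x hx (hR x hx)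
  have h4 : pol B ^ 2 * (E ^ 2 * s) = derivative A * s := by
    rw [hA]
    ring
  congr 1
  rw [h4, eval_mul, h3, eval_pow]
  ring

theorem WWW (K : Type*) [Field K] [CharP K 2] (h1 : ZRT_stmt K) (h2 : EUL_stmt K) : WWW_stmt K := by
  intro A E s w₁ w₂ B R₁ R₂ hS g hg
  rw [WWW_one h1 A E s w₁ g B R₁ hS.hA hS.h1 (fun x hx => (hS.hR1 x hx).2.2),
    WWW_one h1 A E s w₂ g B R₂ hS.hA hS.h2 (fun x hx => (hS.hR2 x hx).2.2)]
  have h4 : pol B ^ 2 * (E ^ 2 * s) = derivative A * s := by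
    rw [hS.hA]
    ring
  apply h2 R₁ R₂ (s ^ 2) g (hS.hs.pow 2) hS.hcard
  · refine dvd_trans ?_ hS.hmod
    exact ⟨E ^ 6 * s, by ring⟩
  · intro x hx
    rw [eval_pow]
    exact pow_ne_zero _ (hS.hR1 x hx).2.2
  · intro x hx
    rw [eval_pow]
    exact pow_ne_zero _ (hS.hR2 x hx).2.2
  · rw [hS.hs.natDegree_pow]
    have hb := hS.hbig
    by_cases hg0 : g = 0
    · rw [hg0, natDegree_zero]
      omega
    · have h5 := natDegree_lt_natDegree hg0 hg
      rw [h4] at h5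
      have h6 := natDegree_mul_le (p := derivative A) (q := s)
      have h7 := natDegree_derivative_le A
      omega

end Pool.Agent.FF2
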